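import Pool.Agent.Work.MP_ac1f36_co.Ineq

set_option autoImplicit false

namespace Pool.Agent.Work.MP_ac1f36_co

/-- The word 0, 1, 2, 0, 3, 4, 5, 3, 0, 2, 6, 7, 1, 8, 9, 7, 2, 3, 10, 7, 9, 5, 11, 4, 12, 13, 11, 5, 6, 14, 11, 8, 13, 15, 12, 9, 10, 12, 15, 13, 14, 15, stored in base 16. -/
def W (i : Fin 42) : Fin 16 :=
  ⟨(372499039250267163591954792488660713848895749423632 / 16 ^ i.val) % 16, Nat.mod_lt _ (by decide)⟩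

theorem W_adj : ∀ i j : Fin 42, i.val + 1 = j.val → W i ≠ W j := by
  decide +kernel

theorem W_aux : ∀ i₁ i₃ : Fin 42, i₁ < i₃ → W i₁ = W i₃ → ∀ i₅ : Fin 42, i₃ < i₅ → W i₃ = W i₅ →
    ∀ i₂ : Fin 42, i₁ < i₂ → i₂ < i₃ → ∀ i₄ : Fin 42, i₃ < i₄ → i₄ < i₅ → W i₂ = W i₄ →
      W i₁ = W i₂ := by
  decide +kernel

theorem W_ds : ¬ ∃ (p q : Fin 16) (i₁ i₂ i₃ i₄ i₅ : Fin 42), p ≠ q ∧ i₁ < i₂ ∧ i₂ < i₃ ∧ i₃ < i₄ ∧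
    i₄ < i₅ ∧ W i₁ = p ∧ W i₂ = q ∧ W i₃ = p ∧ W i₄ = q ∧ W i₅ = p := by
  rintro ⟨p, q, i₁, i₂, i₃, i₄, i₅, hne, h12, h23, h34, h45, e1, e2, e3, e4, e5⟩
  have := W_aux i₁ i₃ (h12.trans h23) (e1.trans e3.symm) i₅ (h34.trans h45) (e3.trans e5.symm)
    i₂ h12 h23 i₄ h34 h45 (e2.trans e4.symm)
  exact hne (e1.symm.trans (this.trans e2))

end Pool.Agent.Work.MP_ac1f36_co
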