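import Pool.Agent.Work.MP_ac1f36_co.Word

set_option autoImplicit false

namespace Pool.Agent.Work.MP_ac1f36_co

/-- No sixteen lines and increasing abscissae satisfy the inequalities dictated by the word. -/
theorem core (a b : Fin 16 → ℝ) (s : Fin 42 → ℝ) (mono : ∀ i k : Fin 42, i < k → s i < s k)
    (key : ∀ (i k j : Fin 42) (p q : Fin 16),
      (i < k ∧ k < j ∧ W i = q ∧ W j = q ∧ W k = p ∧ q ≠ p) →
      a p * s k + b p < a q * s k + b q) : False := by
  have e12 : a 4 < a 5 := slope_lt (mono 6 23 (by decide)) (key 5 6 23 5 4 (by decide +kernel)) (key 6 23 27 4 5 (by decide +kernel))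
  have e23 : a 5 < a 6 := slope_lt (mono 10 21 (by decide)) (key 6 10 27 6 5 (by decide +kernel)) (key 10 21 28 5 6 (by decide +kernel))
  have e45 : a 8 < a 9 := slope_lt (mono 20 31 (by decide)) (key 13 20 31 9 8 (by decide +kernel)) (key 14 31 35 8 9 (by decide +kernel))
  have e56 : a 9 < a 10 := slope_lt (mono 18 35 (by decide)) (key 14 18 35 10 9 (by decide +kernel)) (key 18 35 36 9 10 (by decide +kernel))
  have hl := half
    (mono 1 3 (by decide))
    (mono 3 5 (by decide))
    (mono 5 7 (by decide))
    (mono 7 9 (by decide))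
    (mono 9 10 (by decide))
    (mono 10 12 (by decide))
    (mono 12 13 (by decide))
    (mono 13 15 (by decide))
    (mono 15 17 (by decide))
    (mono 17 18 (by decide))
    (mono 18 20 (by decide))
    (mono 10 21 (by decide))
    e12
    e23
    e45
    e56
    (key 0 1 8 1 0 (by decide +kernel))
    (key 1 3 12 0 1 (by decide +kernel))
    (key 2 3 16 0 2 (by decide +kernel))
    (key 4 5 17 4 3 (by decide +kernel))
    (key 0 7 8 3 0 (by decide +kernel))
    (key 2 7 16 3 2 (by decide +kernel))
    (key 5 7 23 3 4 (by decide +kernel))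
    (key 6 7 27 3 5 (by decide +kernel))
    (key 1 9 12 2 1 (by decide +kernel))
    (key 4 9 17 2 3 (by decide +kernel))
    (key 4 10 17 6 3 (by decide +kernel))
    (key 2 12 16 1 2 (by decide +kernel))
    (key 11 12 19 1 7 (by decide +kernel))
    (key 11 13 19 8 7 (by decide +kernel))
    (key 2 15 16 7 2 (by decide +kernel))
    (key 4 15 17 7 3 (by decide +kernel))
    (key 13 15 31 7 8 (by decide +kernel))
    (key 14 15 35 7 9 (by decide +kernel))
    (key 11 17 19 3 7 (by decide +kernel))
    (key 11 18 19 10 7 (by decide +kernel))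
    (key 13 20 31 9 8 (by decide +kernel))
    (key 18 20 36 9 10 (by decide +kernel))
    (key 5 21 23 5 4 (by decide +kernel))
    (key 10 21 28 5 6 (by decide +kernel))
  have hr := half
    (neg_lt_neg (mono 38 40 (by decide)))
    (neg_lt_neg (mono 36 38 (by decide)))
    (neg_lt_neg (mono 34 36 (by decide)))
    (neg_lt_neg (mono 32 34 (by decide)))
    (neg_lt_neg (mono 31 32 (by decide)))
    (neg_lt_neg (mono 29 31 (by decide)))
    (neg_lt_neg (mono 28 29 (by decide)))
    (neg_lt_neg (mono 26 28 (by decide)))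
    (neg_lt_neg (mono 24 26 (by decide)))
    (neg_lt_neg (mono 23 24 (by decide)))
    (neg_lt_neg (mono 21 23 (by decide)))
    (neg_lt_neg (mono 20 31 (by decide)))
    (neg_lt_neg e56)
    (neg_lt_neg e45)
    (neg_lt_neg e23)
    (neg_lt_neg e12)
    (mir (key 33 40 41 14 15 (by decide +kernel)))
    (mir (key 29 38 40 15 14 (by decide +kernel)))
    (mir (key 25 38 39 15 13 (by decide +kernel)))
    (mir (key 24 36 37 10 12 (by decide +kernel)))
    (mir (key 33 34 41 12 15 (by decide +kernel)))
    (mir (key 25 34 39 12 13 (by decide +kernel)))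
    (mir (key 18 34 36 12 10 (by decide +kernel)))
    (mir (key 14 34 35 12 9 (by decide +kernel)))
    (mir (key 29 32 40 13 14 (by decide +kernel)))
    (mir (key 24 32 37 13 12 (by decide +kernel)))
    (mir (key 24 31 37 8 12 (by decide +kernel)))
    (mir (key 25 29 39 14 13 (by decide +kernel)))
    (mir (key 22 29 30 14 11 (by decide +kernel)))
    (mir (key 22 28 30 6 11 (by decide +kernel)))
    (mir (key 25 26 39 11 13 (by decide +kernel)))
    (mir (key 24 26 37 11 12 (by decide +kernel)))
    (mir (key 10 26 28 11 6 (by decide +kernel)))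
    (mir (key 6 26 27 11 5 (by decide +kernel)))
    (mir (key 22 24 30 12 11 (by decide +kernel)))
    (mir (key 22 23 30 4 11 (by decide +kernel)))
    (mir (key 10 21 28 5 6 (by decide +kernel)))
    (mir (key 5 21 23 5 4 (by decide +kernel)))
    (mir (key 18 20 36 9 10 (by decide +kernel)))
    (mir (key 13 20 31 9 8 (by decide +kernel)))
  nlinarith

/-- Ties broken by a priority are removed by a small vertical shift. -/
theorem core_tie (a b π : Fin 16 → ℝ) (s : Fin 42 → ℝ) (mono : ∀ i k : Fin 42, i < k → s i < s k)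
    (key : ∀ (i k j : Fin 42) (p q : Fin 16),
      (i < k ∧ k < j ∧ W i = q ∧ W j = q ∧ W k = p ∧ q ≠ p) →
      a p * s k + b p < a q * s k + b q ∨ (a p * s k + b p = a q * s k + b q ∧ π p < π q)) :
    False := by
  have h : ∀ x y u v : ℝ, ∀ᶠ ε in nhdsWithin (0 : ℝ) (Set.Ioi 0),
      (x < y ∨ (x = y ∧ u < v)) → x + ε * u < y + ε * v := by
    intro x y u v
    by_cases hxy : x < y
    · have c1 : ContinuousAt (fun ε : ℝ => x + ε * u) 0 := by fun_prop
      have c2 : ContinuousAt (fun ε : ℝ => y + ε * v) 0 := by fun_prop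
      have := c1.eventually_lt c2 (by simpa using hxy)
      exact (this.filter_mono nhdsWithin_le_nhds).mono fun ε hε _ => hε
    · refine Filter.eventually_of_mem self_mem_nhdsWithin fun ε hε h => ?_
      obtain ⟨rfl, huv⟩ := h.resolve_left hxy
      exact add_lt_add_right (mul_lt_mul_of_pos_left huv hε) x
  obtain ⟨ε, hε⟩ := (Filter.eventually_all.2 fun k : Fin 42 => Filter.eventually_all.2
    fun p : Fin 16 => Filter.eventually_all.2 fun q : Fin 16 =>
      h (a p * s k + b p) (a q * s k + b q) (π p) (π q)).exists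
  refine core a (fun i => b i + ε * π i) s mono fun i k j p q hh => ?_
  have := hε k p q (key i k j p q hh)
  linarith

end Pool.Agent.Work.MP_ac1f36_co
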