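import Mathlib

set_option autoImplicit false

namespace Pool.Agent.Work.MP_ac1f36_co

/-- two affine functions exchanging order between `x < y` have ordered slopes -/
theorem slope_lt {p bp q bq x y : ℝ} (hxy : x < y) (h1 : q * x + bq < p * x + bp)
    (h2 : p * y + bp < q * y + bq) : p < q := by
  by_contra h
  have h' : q ≤ p := not_lt.mp h
  nlinarith [mul_nonneg (sub_nonneg.mpr h') (sub_nonneg.mpr hxy.le)]

theorem cycU {p bp q bq r br x y z : ℝ} (h1 : p * x + bp < q * x + bq)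
    (h2 : r * y + br < p * y + bp) (h3 : q * z + bq < r * z + br) :
    (q - p) * (y - x) < (r - q) * (z - y) := by
  nlinarith

theorem cycL {p bp q bq r br x y z : ℝ} (h1 : q * x + bq < p * x + bp)
    (h2 : p * y + bp < r * y + br) (h3 : r * z + br < q * z + bq) :
    (r - q) * (z - y) < (q - p) * (y - x) := by
  nlinarith

theorem steiner {z bz p bp q bq r br x y v M : ℝ} (hzp : z < p) (hpq : p < q)
    (hyv : y < v) (hvM : v < M)
    (h1 : p * x + bp < z * x + bz) (h2 : z * y + bz < q * y + bq)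
    (h3 : r * v + br < z * v + bz) (h4 : q * M + bq < r * M + br)
    (h5 : q * M + bq < p * M + bp) :
    (q - p) * (v - y) < (r - q) * (y - x) := by
  have hU : (q - z) * (v - y) < (r - q) * (M - v) := cycU h2 h3 h4
  have hL : (q - p) * (M - y) < (p - z) * (y - x) := cycL h1 h2 h5
  have a1 : 0 < p - z := sub_pos.mpr hzp
  have a2 : 0 < q - p := sub_pos.mpr hpq
  have a3 : 0 < v - y := sub_pos.mpr hyv
  have a4 : 0 < M - v := sub_pos.mpr hvM
  have b1 : (p - z) * (v - y) < (r - q) * (M - v) := by linarith only [hU, mul_pos a2 a3]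
  have b2 : (q - p) * (M - v) < (p - z) * (y - x) := by linarith only [hL, mul_pos a2 a3]
  have c := mul_lt_mul'' b1 b2 (mul_pos a1 a3).le (mul_pos a2 a4).le
  have d : ((p - z) * (M - v)) * ((q - p) * (v - y)) <
      ((p - z) * (M - v)) * ((r - q) * (y - x)) := by linarith only [c]
  exact lt_of_mul_lt_mul_left d (mul_pos a1 a4).le

/-- the five-line gadget forces an inequality between four time intervals -/
theorem gadget {a0 a1 a2 a3 a4 A B C D E : ℝ} (h01 : a0 < a1) (h12 : a1 < a2) (h23 : a2 < a3)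
    (h34 : a3 < a4) (hA : 0 < A) (hD : 0 < D) (hE : 0 < E)
    (u1 : (a2 - a0) * A < (a3 - a2) * B) (u2 : (a3 - a2) * (E + D) < (a4 - a3) * C)
    (l1 : (a4 - a2) * D < (a2 - a1) * E) : A * D < B * C := by
  have g1 : 0 < a1 - a0 := sub_pos.mpr h01
  have g2 : 0 < a2 - a1 := sub_pos.mpr h12
  have g3 : 0 < a3 - a2 := sub_pos.mpr h23
  have g4 : 0 < a4 - a3 := sub_pos.mpr h34
  have v1 : (a2 - a1) * A < (a3 - a2) * B := by linarith only [u1, mul_pos g1 hA]
  have v2 : (a3 - a2) * E < (a4 - a3) * C := by linarith only [u2, mul_pos g3 hD]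
  have v3 : (a4 - a3) * D < (a2 - a1) * E := by linarith only [l1, mul_pos g3 hD]
  have w1 := mul_lt_mul'' v1 v2 (mul_pos g2 hA).le (mul_pos g3 hE).le
  have w2 := mul_lt_mul'' w1 v3 (mul_pos (mul_pos g2 hA) (mul_pos g3 hE)).le (mul_pos g4 hD).le
  have k : 0 < (a2 - a1) * (a3 - a2) * (a4 - a3) * E := by positivity
  have d : ((a2 - a1) * (a3 - a2) * (a4 - a3) * E) * (A * D) <
      ((a2 - a1) * (a3 - a2) * (a4 - a3) * E) * (B * C) := by linarith only [w2]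
  exact lt_of_mul_lt_mul_left d k.le

theorem combine {x1 x2 y1 y2 A B C D : ℝ} (hx1 : 0 < x1) (hy1 : 0 < y1)
    (hA : 0 < A) (hB : 0 < B) (hC : 0 < C) (hD : 0 < D)
    (t1 : x1 * B < x2 * A) (t2 : y1 * C < y2 * D) (g : A * D < B * C) :
    x1 * y1 < x2 * y2 := by
  have w := mul_lt_mul'' t1 t2 (mul_pos hx1 hB).le (mul_pos hy1 hC).le
  have w2 : (x1 * y1) * (A * D) < (x1 * y1) * (B * C) :=
    mul_lt_mul_of_pos_left g (mul_pos hx1 hy1)
  have d : (A * D) * (x1 * y1) < (A * D) * (x2 * y2) := by linarith only [w, w2]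
  exact lt_of_mul_lt_mul_left d (mul_pos hA hD).le

theorem half {a0 b0 a1 b1 a2 b2 a3 b3 a4 b4 e1 c1 e2 c2 e3 c3 e4 c4 e5 c5 e6 c6
    s1 s3 s5 s7 s9 s10 s12 s13 s15 s17 s18 M1 M2 : ℝ}
    (t1 : s1 < s3) (t2 : s3 < s5) (t3 : s5 < s7) (t4 : s7 < s9) (t5 : s9 < s10)
    (t6 : s10 < s12) (t7 : s12 < s13) (t8 : s13 < s15) (t9 : s15 < s17) (t10 : s17 < s18)
    (t11 : s18 < M1) (t12 : s10 < M2)
    (e12 : e1 < e2) (e23 : e2 < e3) (e45 : e4 < e5) (e56 : e5 < e6)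
    (p1 : a1 * s1 + b1 < a0 * s1 + b0)
    (p3a : a0 * s3 + b0 < a1 * s3 + b1) (p3b : a0 * s3 + b0 < a2 * s3 + b2)
    (p5 : e1 * s5 + c1 < a3 * s5 + b3)
    (p7a : a3 * s7 + b3 < a0 * s7 + b0) (p7b : a3 * s7 + b3 < a2 * s7 + b2)
    (p7c : a3 * s7 + b3 < e1 * s7 + c1) (p7d : a3 * s7 + b3 < e2 * s7 + c2)
    (p9a : a2 * s9 + b2 < a1 * s9 + b1) (p9b : a2 * s9 + b2 < a3 * s9 + b3)
    (p10 : e3 * s10 + c3 < a3 * s10 + b3)
    (p12a : a1 * s12 + b1 < a2 * s12 + b2) (p12b : a1 * s12 + b1 < a4 * s12 + b4)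
    (p13 : e4 * s13 + c4 < a4 * s13 + b4)
    (p15a : a4 * s15 + b4 < a2 * s15 + b2) (p15b : a4 * s15 + b4 < a3 * s15 + b3)
    (p15c : a4 * s15 + b4 < e4 * s15 + c4) (p15d : a4 * s15 + b4 < e5 * s15 + c5)
    (p17 : a3 * s17 + b3 < a4 * s17 + b4)
    (p18 : e6 * s18 + c6 < a4 * s18 + b4)
    (q1a : e5 * M1 + c5 < e4 * M1 + c4) (q1b : e5 * M1 + c5 < e6 * M1 + c6)
    (q2a : e2 * M2 + c2 < e1 * M2 + c1) (q2b : e2 * M2 + c2 < e3 * M2 + c3) :
    (e2 - e1) * (e5 - e4) < (e3 - e2) * (e6 - e5) := by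
  have h01 : a0 < a1 := slope_lt t1 p1 p3a
  have h12 : a1 < a2 := slope_lt (t5.trans t6) p9a p12a
  have h23 : a2 < a3 := slope_lt t4 p7b p9b
  have h34 : a3 < a4 := slope_lt t9 p15b p17
  have h3e : a3 < e1 := slope_lt t3 p5 p7c
  have h4e : a4 < e4 := slope_lt t8 p13 p15c
  have u1 : (a2 - a0) * (s7 - s3) < (a3 - a2) * (s9 - s7) := cycU p3b p7a p9b
  have u2 : (a3 - a2) * (s15 - s9) < (a4 - a3) * (s17 - s15) := cycU p9b p15a p17
  have l1 : (a4 - a2) * (s15 - s12) < (a2 - a1) * (s12 - s9) := cycL p9a p12b p15a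
  have g : (s7 - s3) * (s15 - s12) < (s9 - s7) * (s17 - s15) := by
    refine gadget (E := s12 - s9) h01 h12 h23 h34 (by linarith only [t2, t3])
      (by linarith only [t7, t8]) (by linarith only [t5, t6]) u1 ?_ l1
    have : s12 - s9 + (s15 - s12) = s15 - s9 := by ring
    rw [this]; exact u2
  have st1 : (e2 - e1) * (s10 - s7) < (e3 - e2) * (s7 - s5) :=
    steiner h3e e12 (t4.trans t5) t12 p5 p7d p10 q2b q2a
  have st2 : (e5 - e4) * (s18 - s15) < (e6 - e5) * (s15 - s13) :=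
    steiner h4e e45 (t9.trans t10) t11 p13 p15d p18 q1b q1a
  have x1 : 0 < e2 - e1 := sub_pos.mpr e12
  have x2 : 0 < e3 - e2 := sub_pos.mpr e23
  have y1 : 0 < e5 - e4 := sub_pos.mpr e45
  have y2 : 0 < e6 - e5 := sub_pos.mpr e56
  refine combine (A := s7 - s3) (B := s9 - s7) (C := s17 - s15) (D := s15 - s12) x1 y1
    (by linarith only [t2, t3]) (sub_pos.mpr t4) (sub_pos.mpr t9) (by linarith only [t7, t8]) ?_ ?_ g
  · linarith only [st1, mul_pos x1 (sub_pos.mpr t5), mul_pos x2 (sub_pos.mpr t2)]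
  · linarith only [st2, mul_pos y1 (sub_pos.mpr t10), mul_pos y2 (sub_pos.mpr t7)]

theorem mir {a b a' b' x : ℝ} (h : a * x + b < a' * x + b') :
    (-a) * (-x) + b < (-a') * (-x) + b' := by
  simpa using h

end Pool.Agent.Work.MP_ac1f36_co
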